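import Mathlib

/-!
# Closed complexity along piecewise syndetic sets (MP_304c86_co, Q1, disproof)

The characteristic word of the powers of `5` is aperiodic, and it has at most two closed factors
of length `n` for all `n` in a thick (hence piecewise syndetic) set.
-/

namespace Pool.Agent.Results.MP_304c86_co.ClosedThick

/-- The factor of length `n` of the infinite word `x` at position `i`. -/
def factor {A : Type*} (x : ℕ → A) (i n : ℕ) : List A := List.ofFn (fun j : Fin n => x (i + j))

/-- The set of the positions at which the word `u` occurs in the word `w`. -/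
def occurrences {A : Type*} (u w : List A) : Set ℕ := {p | p ≤ w.length ∧ u <+: w.drop p}

/-- A word `w` is closed if `|w| ≤ 1`, or if it has a border `u` (a proper initial segment which is
also a final segment) which occurs in `w` exactly twice. -/
def Closed {A : Type*} (w : List A) : Prop :=
  w.length ≤ 1 ∨ ∃ u : List A, u ≠ w ∧ u <+: w ∧ u <:+ w ∧ (occurrences u w).encard = 2

/-- The closed complexity: the number of distinct closed factors of length `n` of `x`. -/
noncomputable def cl {A : Type*} (x : ℕ → A) (n : ℕ) : ℕ∞ :=
  {w : List A | (∃ i, w = factor x i n) ∧ Closed w}.encard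

/-- `x` is aperiodic: it is not ultimately periodic. -/
def Aperiodic {A : Type*} (x : ℕ → A) : Prop :=
  ¬ ∃ N p : ℕ, 0 < p ∧ ∀ n, N ≤ n → x (n + p) = x n

/-- `S` is syndetic. -/
def Syndetic (S : Set ℕ) : Prop := ∃ g : ℕ, ∀ m, ∃ j, j < g ∧ m + j ∈ S

/-- `S` is thick. -/
def Thick (S : Set ℕ) : Prop := ∀ L : ℕ, ∃ m, ∀ j, j < L → m + j ∈ S

/-- `S` is piecewise syndetic: the intersection of a syndetic set and a thick set. -/
def PiecewiseSyndetic (S : Set ℕ) : Prop := ∃ S₁ T : Set ℕ, Syndetic S₁ ∧ Thick T ∧ S = S₁ ∩ T

/-! ### Words -/

theorem factor_length {A : Type*} (x : ℕ → A) (i n : ℕ) : (factor x i n).length = n := by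
  simp [factor]

theorem factor_getElem? {A : Type*} (x : ℕ → A) (i n j : ℕ) (hj : j < n) :
    (factor x i n)[j]? = some (x (i + j)) := by
  unfold factor
  rw [List.getElem?_eq_getElem (by simpa using hj)]
  simp

theorem isPrefix_iff {A : Type*} (u v : List A) :
    u <+: v ↔ u.length ≤ v.length ∧ ∀ j, j < u.length → u[j]? = v[j]? := by
  constructor
  · intro h
    refine ⟨h.length_le, fun j hj => ?_⟩
    obtain ⟨t, rfl⟩ := h
    rw [List.getElem?_append_left hj]
  · rintro ⟨h1, h2⟩
    rw [List.prefix_iff_eq_take]
    apply List.ext_getElem?
    intro j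
    by_cases hj : j < u.length
    · rw [List.getElem?_take_of_lt hj]
      exact h2 j hj
    · rw [List.getElem?_eq_none (by omega), List.getElem?_eq_none (by rw [List.length_take]; omega)]

/-- What closedness of a factor of length at least two gives. -/
theorem closed_factor {A : Type*} {x : ℕ → A} {i n : ℕ} (hn : 2 ≤ n)
    (h : Closed (factor x i n)) :
    ∃ k, k < n ∧ (∀ j, j < k → x (i + j) = x (i + (n - k) + j)) ∧
      ∀ s, 0 < s → s < n - k → ∃ j, j < k ∧ x (i + s + j) ≠ x (i + j) := by
  rcases h with h | ⟨u, hne, hp, hs, hocc⟩
  · rw [factor_length] at h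
    omega
  · have hlen : u.length ≤ n := by
      have := hp.length_le
      rwa [factor_length] at this
    have hlt : u.length < n := by
      rcases Nat.lt_or_ge u.length n with h1 | h1
      · exact h1
      · exact absurd (hp.eq_of_length (by rw [factor_length]; omega)) hne
    have hu : ∀ j, j < u.length → u[j]? = some (x (i + j)) := by
      intro j hj
      rw [((isPrefix_iff _ _).1 hp).2 j hj, factor_getElem? x i n j (by omega)]
    have hdrop : ∀ s j, s + j < n → ((factor x i n).drop s)[j]? = some (x (i + s + j)) := by
      intro s j hsj
      rw [List.getElem?_drop, factor_getElem? x i n _ hsj, ← Nat.add_assoc]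
    have hsuf : u <+: (factor x i n).drop (n - u.length) := by
      have h1 := List.suffix_iff_eq_drop.mp hs
      rw [factor_length] at h1
      rw [← h1]
    refine ⟨u.length, hlt, fun j hj => ?_, fun s hs0 hsn => ?_⟩
    · have h1 := ((isPrefix_iff _ _).1 hsuf).2 j hj
      rw [hu j hj, hdrop _ _ (by omega)] at h1
      exact Option.some.inj h1
    · by_contra hcon
      have hcon' : ∀ j, j < u.length → x (i + s + j) = x (i + j) := by
        intro j hj
        by_contra h1
        exact hcon ⟨j, hj, h1⟩
      have m0 : 0 ∈ occurrences u (factor x i n) := ⟨by omega, by simpa using hp⟩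
      have m1 : n - u.length ∈ occurrences u (factor x i n) :=
        ⟨by rw [factor_length]; omega, hsuf⟩
      have m2 : s ∈ occurrences u (factor x i n) := by
        refine ⟨by rw [factor_length]; omega, ?_⟩
        rw [isPrefix_iff]
        refine ⟨by rw [List.length_drop, factor_length]; omega, fun j hj => ?_⟩
        rw [hu j hj, hdrop _ _ (by omega), hcon' j hj]
      obtain ⟨y, z, _, hyz⟩ := Set.encard_eq_two.mp hocc
      rw [hyz] at m0 m1 m2
      simp only [Set.mem_insert_iff, Set.mem_singleton_iff] at m0 m1 m2
      omega

/-! ### The word -/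

/-- The characteristic word of the set of the powers of `5`. -/
noncomputable def pow5 : ℕ → Bool := by
  classical exact fun n => decide (∃ k, n = 5 ^ k)

theorem pow5_true {n : ℕ} : pow5 n = true ↔ ∃ k, n = 5 ^ k := by
  classical
  unfold pow5
  simp

theorem pow5_pow (k : ℕ) : pow5 (5 ^ k) = true := pow5_true.2 ⟨k, rfl⟩

theorem pow5_false_of_between {t n : ℕ} (h1 : 5 ^ t < n) (h2 : n < 5 ^ (t + 1)) :
    pow5 n = false := by
  by_contra h
  rw [Bool.not_eq_false, pow5_true] at h
  obtain ⟨k, rfl⟩ := h
  have := (Nat.pow_lt_pow_iff_right (by norm_num : 1 < 5)).1 h1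
  have := (Nat.pow_lt_pow_iff_right (by norm_num : 1 < 5)).1 h2
  omega

theorem pow5_aperiodic : Aperiodic pow5 := by
  rintro ⟨N, p, hp, h⟩
  -- choose a power larger than both `N` and `p`
  obtain ⟨t, ht⟩ : ∃ t, N + p < 5 ^ t := ⟨N + p, Nat.lt_pow_self (by norm_num)⟩
  have h1 := h (5 ^ t) (by omega)
  rw [pow5_pow] at h1
  have h2 : pow5 (5 ^ t + p) = false := by
    apply pow5_false_of_between (t := t) (by omega)
    rw [pow_succ]
    omega
  rw [h2] at h1
  cases h1

/-- The thick set. -/
def T : Set ℕ := {n | ∃ t, 2 * 5 ^ t + 3 ≤ n ∧ n ≤ 4 * 5 ^ t}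

theorem T_thick : Thick T := by
  intro L
  have h : L < 5 ^ L := Nat.lt_pow_self (by norm_num)
  refine ⟨2 * 5 ^ (L + 1) + 3, fun j hj => ⟨L + 1, by omega, ?_⟩⟩
  rw [pow_succ]
  omega

/-- The closed factors of length `n ∈ T`. -/
theorem closed_mem {t n i : ℕ} (h1 : 2 * 5 ^ t + 3 ≤ n) (h2 : n ≤ 4 * 5 ^ t)
    (hc : Closed (factor pow5 i n)) :
    factor pow5 i n ∈ ({List.replicate n false,
      List.replicate (n / 2) false ++ true :: List.replicate (n / 2) false} : Set (List Bool)) := by
  obtain ⟨k, hk, hb, ho⟩ := closed_factor (by omega) hc
  have hpt : 0 < 5 ^ t := by positivity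
  rcases Nat.lt_or_ge (5 ^ t) i with hi | hi
  · -- at most one `true` in the window
    by_cases hall : ∀ j, j < n → pow5 (i + j) = false
    · left
      rw [List.eq_replicate_iff]
      refine ⟨factor_length _ _ _, fun b hb' => ?_⟩
      unfold factor at hb'
      rw [List.mem_ofFn] at hb'
      obtain ⟨j, rfl⟩ := hb'
      exact hall j j.isLt
    · right
      push Not at hall
      obtain ⟨l, hl, hlt⟩ := hall
      rw [ne_eq, Bool.not_eq_false, pow5_true] at hlt
      obtain ⟨s, hs⟩ := hlt
      have hst : t < s := by
        apply (Nat.pow_lt_pow_iff_right (by norm_num : 1 < 5)).1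
        omega
      have hsne : s ≠ 0 := by omega
      obtain ⟨s', rfl⟩ : ∃ s', s = s' + 1 := ⟨s - 1, by omega⟩
      have hle : 5 ^ t ≤ 5 ^ s' := Nat.pow_le_pow_right (by norm_num) (by omega)
      -- the only `true` is at `l`
      have huniq : ∀ j, j < n → (pow5 (i + j) = true ↔ j = l) := by
        intro j hj
        constructor
        · intro hj1
          by_contra hjl
          rcases Nat.lt_or_ge j l with hlt | hge
          · -- a power of five strictly between
            have : pow5 (i + j) = false := by
              apply pow5_false_of_between (t := s')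
              · have e := hs
                rw [pow_succ] at e
                omega
              · omega
            rw [this] at hj1
            cases hj1
          · have : pow5 (i + j) = false := by
              apply pow5_false_of_between (t := s' + 1)
              · omega
              · rw [pow_succ, pow_succ]
                have e := hs
                rw [pow_succ] at e
                omega
            rw [this] at hj1
            cases hj1
        · rintro rfl
          rw [hs]
          exact pow5_pow _
      have hfalse : ∀ j, j < n → j ≠ l → pow5 (i + j) = false := by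
        intro j hj hjl
        by_contra h3
        rw [Bool.not_eq_false] at h3
        exact hjl ((huniq j hj).1 h3)
      have hkl : k ≤ l := by
        by_contra hcon
        have h3 := hb l (by omega)
        rw [(huniq l hl).2 rfl, show i + (n - k) + l = i + ((n - k) + l) by omega] at h3
        have := (huniq ((n - k) + l) (by omega)).1 h3.symm
        omega
      have hkr : k + l < n := by
        by_contra hcon
        have h3 := hb (l - (n - k)) (by omega)
        rw [show i + (n - k) + (l - (n - k)) = i + l by omega, (huniq l hl).2 rfl] at h3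
        have := (huniq _ (by omega)).1 h3
        omega
      have hmid : l + l + 1 = n := by
        rcases Nat.lt_trichotomy (l + l + 1) n with h3 | h3 | h3
        · exfalso
          obtain ⟨j, hj, hj2⟩ := ho (n - k - 1) (by omega) (by omega)
          apply hj2
          rw [show i + (n - k - 1) + j = i + (n - k - 1 + j) by omega,
            hfalse _ (by omega) (by omega), hfalse j (by omega) (by omega)]
        · exact h3
        · exfalso
          obtain ⟨j, hj, hj2⟩ := ho 1 (by omega) (by omega)
          apply hj2
          rw [show i + 1 + j = i + (1 + j) by omega,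
            hfalse _ (by omega) (by omega), hfalse j (by omega) (by omega)]
      have hn2 : n / 2 = l := by omega
      rw [Set.mem_singleton_iff, hn2]
      apply List.ext_getElem?
      intro j
      rcases Nat.lt_or_ge j n with hj | hj
      · rw [factor_getElem? _ _ _ _ hj]
        rcases Nat.lt_trichotomy j l with h3 | h3 | h3
        · rw [hfalse j hj (by omega), List.getElem?_append_left (by simpa using h3),
            List.getElem?_replicate_of_lt h3]
        · subst h3
          rw [(huniq j hj).2 rfl, List.getElem?_append_right (by simp)]
          simp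
        · rw [hfalse j hj (by omega), List.getElem?_append_right (by simp; omega),
            List.length_replicate]
          obtain ⟨r, hr⟩ : ∃ r, j - l = r + 1 := ⟨j - l - 1, by omega⟩
          rw [hr, List.getElem?_cons_succ, List.getElem?_replicate_of_lt (by omega)]
      · rw [List.getElem?_eq_none (by rw [factor_length]; omega),
          List.getElem?_eq_none (by simp; omega)]
  · -- the window contains position `5 ^ t`, and nothing after it
    exfalso
    have hz : ∀ q, 5 ^ t < q → q < i + n → pow5 q = false := by
      intro q hq1 hq2
      apply pow5_false_of_between hq1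
      rw [pow_succ]
      omega
    rcases Nat.lt_or_ge (5 ^ t) (i + (n - k)) with h3 | h3
    · -- the border is a block of `false`
      have h4 : k ≤ 5 ^ t - i := by
        by_contra hcon
        have h5 := hb (5 ^ t - i) (by omega)
        rw [show i + (5 ^ t - i) = 5 ^ t by omega, pow5_pow, hz _ (by omega) (by omega)] at h5
        cases h5
      obtain ⟨j, hj, hj2⟩ := ho (n - k - 1) (by omega) (by omega)
      apply hj2
      rw [hz _ (by omega) (by omega), hb j hj, hz _ (by omega) (by omega)]
    · -- the border contains the last `true`
      have h5 := hb (5 ^ t - (i + (n - k))) (by omega)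
      rw [show i + (n - k) + (5 ^ t - (i + (n - k))) = 5 ^ t by omega, pow5_pow] at h5
      have h6 := hb (5 ^ t - i) (by omega)
      rw [show i + (5 ^ t - i) = 5 ^ t by omega, pow5_pow,
        hz _ (by omega) (by omega)] at h6
      cases h6

/-- **MP_304c86_co, Q1 (disproof).** There are an aperiodic infinite binary word `x` and a thick,
piecewise syndetic set `S` such that `x` has at most two closed factors of length `n` for every
`n ∈ S`. -/
theorem result : ∃ (x : ℕ → Bool) (S : Set ℕ), Aperiodic x ∧ PiecewiseSyndetic S ∧ Thick S ∧
    ∀ n ∈ S, cl x n ≤ 2 := by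
  refine ⟨pow5, T, pow5_aperiodic, ⟨Set.univ, T, ⟨1, fun m => ⟨0, by norm_num, trivial⟩⟩, T_thick,
    by simp⟩, T_thick, ?_⟩
  rintro n ⟨t, h1, h2⟩
  unfold cl
  calc _ ≤ ({List.replicate n false,
      List.replicate (n / 2) false ++ true :: List.replicate (n / 2) false} :
        Set (List Bool)).encard := by
        apply Set.encard_le_encard
        rintro w ⟨⟨i, rfl⟩, hc⟩
        exact closed_mem h1 h2 hc
    _ ≤ 2 := by
        refine (Set.encard_insert_le _ _).trans ?_
        rw [Set.encard_singleton]
        norm_num

end Pool.Agent.Results.MP_304c86_co.ClosedThick
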